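import Mathlib
import Pool.Agent.R161.Bohr.Defs

/-!
# MP_0fda35_co: S_ext (an extreme invariant mean with large value on `A`)
-/

set_option autoImplicit false

namespace Pool.Agent.R289.Bohr

open Pool.Agent.R161.Bohr
open scoped ComplexConjugate

universe u

variable {G : Type u} [AddCommGroup G]

theorem bdd_add {f g : G → ℝ} (hf : BddR f) (hg : BddR g) : BddR (fun x => f x + g x) := by
  obtain ⟨C, hC⟩ := hf
  obtain ⟨D, hD⟩ := hg
  exact ⟨C + D, fun x => (abs_add_le _ _).trans (add_le_add (hC x) (hD x))⟩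

theorem bdd_smul (c : ℝ) {f : G → ℝ} (hf : BddR f) : BddR (fun x => c * f x) := by
  obtain ⟨C, hC⟩ := hf
  refine ⟨|c| * C, fun x => ?_⟩
  rw [abs_mul]
  exact mul_le_mul_of_nonneg_left (hC x) (abs_nonneg c)

theorem bdd_const (c : ℝ) : BddR (fun _ : G => c) := ⟨|c|, fun _ => le_rfl⟩

theorem bdd_shift (s : G) {f : G → ℝ} (hf : BddR f) : BddR (fun x => f (x + s)) := by
  obtain ⟨C, hC⟩ := hf
  exact ⟨C, fun x => hC _⟩

/-- positive linear functionals are bounded -/
theorem habs {m : (G → ℝ) → ℝ}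
    (hadd : ∀ f g, BddR f → BddR g → m (fun x => f x + g x) = m f + m g)
    (hsmul : ∀ (c : ℝ) f, BddR f → m (fun x => c * f x) = c * m f)
    (hnn : ∀ f, BddR f → (∀ x, 0 ≤ f x) → 0 ≤ m f) (f : G → ℝ) (hf : BddR f) (C : ℝ)
    (hC : ∀ x, |f x| ≤ C) : |m f| ≤ C * m (fun _ => 1) := by
  have h1 : m (fun x => C * (fun _ : G => (1 : ℝ)) x) = C * m (fun _ => 1) :=
    hsmul C (fun _ => 1) (bdd_const 1)
  have b1 : BddR (fun x : G => C * (fun _ : G => (1 : ℝ)) x) := bdd_smul C (bdd_const 1)
  have b2 : BddR (fun x : G => (-1 : ℝ) * f x) := bdd_smul _ hf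
  have h2 := hnn (fun x => (C * (fun _ : G => (1 : ℝ)) x) + f x) (bdd_add b1 hf) (by
    intro x
    have := hC x
    have := neg_abs_le (f x)
    simp only [mul_one]
    linarith)
  have h3 := hnn (fun x => (C * (fun _ : G => (1 : ℝ)) x) + ((-1 : ℝ) * f x)) (bdd_add b1 b2) (by
    intro x
    have := hC x
    have := le_abs_self (f x)
    simp only [mul_one]
    linarith)
  rw [hadd _ _ b1 hf, h1] at h2
  rw [hadd _ _ b1 b2, h1, hsmul _ _ hf] at h3
  rw [abs_le]
  constructor <;> linarith

/-- the invariant means which vanish at unbounded functions -/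
def IM (G : Type u) [AddCommGroup G] : Set ((G → ℝ) → ℝ) :=
  {m | IsMean m ∧ ∀ f, ¬ BddR f → m f = 0}

theorem IM_closed : IsClosed (IM G) := by
  have e : IM G = {m | ∀ f g, BddR f → BddR g → m (fun x => f x + g x) = m f + m g} ∩
      {m | ∀ (c : ℝ) f, BddR f → m (fun x => c * f x) = c * m f} ∩
      {m | ∀ f, BddR f → (∀ x, 0 ≤ f x) → 0 ≤ m f} ∩ {m | m (fun _ => 1) = 1} ∩
      {m | ∀ f (s : G), BddR f → m (fun x => f (x + s)) = m f} ∩
      {m | ∀ f, ¬ BddR f → m f = 0} := by
    ext m
    constructor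
    · rintro ⟨h, h'⟩
      exact ⟨⟨⟨⟨⟨h.add, h.smul⟩, h.nonneg⟩, h.one⟩, h.inv⟩, h'⟩
    · rintro ⟨⟨⟨⟨⟨h1, h2⟩, h3⟩, h4⟩, h5⟩, h6⟩
      exact ⟨⟨h1, h2, h3, h4, h5⟩, h6⟩
  rw [e]
  refine ((((IsClosed.inter ?_ ?_).inter ?_).inter ?_).inter ?_).inter ?_
  · simp only [Set.ofPred_forall]
    refine isClosed_iInter fun f => isClosed_iInter fun g => isClosed_iInter fun _ =>
      isClosed_iInter fun _ => isClosed_eq (by fun_prop) (by fun_prop)
  · simp only [Set.ofPred_forall]
    refine isClosed_iInter fun c => isClosed_iInter fun f => isClosed_iInter fun _ =>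
      isClosed_eq (continuous_apply _) (continuous_const.mul (continuous_apply _))
  · simp only [Set.ofPred_forall]
    refine isClosed_iInter fun f => isClosed_iInter fun _ => isClosed_iInter fun _ =>
      isClosed_le continuous_const (continuous_apply _)
  · exact isClosed_eq (continuous_apply _) continuous_const
  · simp only [Set.ofPred_forall]
    refine isClosed_iInter fun f => isClosed_iInter fun _ => isClosed_iInter fun _ =>
      isClosed_eq (continuous_apply _) (continuous_apply _)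
  · simp only [Set.ofPred_forall]
    refine isClosed_iInter fun f => isClosed_iInter fun _ =>
      isClosed_eq (continuous_apply _) continuous_const

theorem IM_compact : IsCompact (IM G) := by
  classical
  let C : (G → ℝ) → ℝ := fun f => if h : BddR f then h.choose else 0
  have hK : IsCompact (Set.pi Set.univ (fun f : G → ℝ => Set.Icc (-(C f)) (C f))) :=
    isCompact_univ_pi (fun f => isCompact_Icc)
  refine hK.of_isClosed_subset IM_closed ?_
  rintro m ⟨hm, hm'⟩ f -
  show m f ∈ Set.Icc (-(C f)) (C f)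
  by_cases h : BddR f
  · have hC : C f = h.choose := dif_pos h
    have h1 := habs hm.add hm.smul hm.nonneg f h h.choose h.choose_spec
    rw [hm.one, mul_one] at h1
    rw [hC]
    exact abs_le.1 h1
  · have hC : C f = 0 := dif_neg h
    rw [hC, hm' f h]
    simp

/-- face of maximal value -/
def Face (a : G → ℝ) : Set ((G → ℝ) → ℝ) := {m ∈ IM G | ∀ m' ∈ IM G, m' a ≤ m a}

theorem Face_compact (a : G → ℝ) : IsCompact (Face a) := by
  have h1 : Face a = IM G ∩ {m | ∀ m' ∈ IM G, m' a ≤ m a} := rfl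
  rw [h1]
  apply IM_compact.inter_right
  simp only [Set.ofPred_forall]
  exact isClosed_iInter fun m' => isClosed_iInter fun _ =>
    isClosed_le continuous_const (continuous_apply _)

theorem Face_nonempty (a : G → ℝ) (h : (IM G).Nonempty) : (Face a).Nonempty := by
  obtain ⟨m, hm, hmax⟩ := IM_compact.exists_isMaxOn h
    ((continuous_apply a).continuousOn)
  exact ⟨m, hm, fun m' hm' => hmax hm'⟩

/-- the state of a mean -/
noncomputable def toSt (m : (G → ℝ) → ℝ) (hm : IsMean m) : St G where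
  toFun f := (m (fun x => (f x).re) : ℂ) + (m (fun x => (f x).im) : ℂ) * Complex.I
  add' := by
    rintro f g ⟨C, hC⟩ ⟨D, hD⟩
    have f1 : BddR (fun x => (f x).re) := ⟨C, fun x => (Complex.abs_re_le_norm _).trans (hC x)⟩
    have f2 : BddR (fun x => (f x).im) := ⟨C, fun x => (Complex.abs_im_le_norm _).trans (hC x)⟩
    have g1 : BddR (fun x => (g x).re) := ⟨D, fun x => (Complex.abs_re_le_norm _).trans (hD x)⟩
    have g2 : BddR (fun x => (g x).im) := ⟨D, fun x => (Complex.abs_im_le_norm _).trans (hD x)⟩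
    simp only [Complex.add_re, Complex.add_im]
    rw [hm.add _ _ f1 g1, hm.add _ _ f2 g2]
    push_cast
    ring
  smul' := by
    rintro c f ⟨C, hC⟩
    have f1 : BddR (fun x => (f x).re) := ⟨C, fun x => (Complex.abs_re_le_norm _).trans (hC x)⟩
    have f2 : BddR (fun x => (f x).im) := ⟨C, fun x => (Complex.abs_im_le_norm _).trans (hC x)⟩
    have e1 : m (fun x => (c * f x).re) =
        c.re * m (fun x => (f x).re) + (-c.im) * m (fun x => (f x).im) := by
      rw [← hm.smul _ _ f1, ← hm.smul _ _ f2, ← hm.add _ _ (bdd_smul _ f1) (bdd_smul _ f2)]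
      congr 1
      funext x
      rw [Complex.mul_re]
      ring
    have e2 : m (fun x => (c * f x).im) =
        c.re * m (fun x => (f x).im) + c.im * m (fun x => (f x).re) := by
      rw [← hm.smul _ _ f1, ← hm.smul _ _ f2, ← hm.add _ _ (bdd_smul _ f2) (bdd_smul _ f1)]
      congr 1
    rw [e1, e2]
    apply Complex.ext
    · simp [sub_eq_add_neg]
    · simp
  real' := by
    intro f hf
    have h0 : m (fun _ => (0 : ℝ)) = 0 := by
      have := hm.smul 0 (fun _ => 1) (bdd_const 1)
      simpa only [zero_mul] using this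
    simp [h0]
  nonneg' := by
    intro f hf hf0
    have := hm.nonneg f hf hf0
    simpa using this
  one' := by
    have h0 : m (fun _ => (0 : ℝ)) = 0 := by
      have := hm.smul 0 (fun _ => 1) (bdd_const 1)
      simpa only [zero_mul] using this
    simp [h0, hm.one]

theorem toSt_re (m : (G → ℝ) → ℝ) (hm : IsMean m) (f : G → ℝ) : (toSt m hm).re f = m f := by
  unfold St.re toSt
  simp

theorem toSt_inv (m : (G → ℝ) → ℝ) (hm : IsMean m) : (toSt m hm).Inv := by
  rintro f s ⟨C, hC⟩
  have f1 : BddR (fun x => (f x).re) := ⟨C, fun x => (Complex.abs_re_le_norm _).trans (hC x)⟩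
  have f2 : BddR (fun x => (f x).im) := ⟨C, fun x => (Complex.abs_im_le_norm _).trans (hC x)⟩
  show ((m (fun x => (f (x + s)).re) : ℝ) : ℂ) + (m (fun x => (f (x + s)).im) : ℂ) * Complex.I =
    (m (fun x => (f x).re) : ℂ) + (m (fun x => (f x).im) : ℂ) * Complex.I
  rw [hm.inv (fun x => (f x).re) s f1, hm.inv (fun x => (f x).im) s f2]

theorem ext_of_extreme (a : G → ℝ) (ha : BddR a) (m : (G → ℝ) → ℝ)
    (hm : m ∈ (Face a).extremePoints ℝ) (q : (G → ℝ) → ℝ)
    (q1 : ∀ f g, BddR f → BddR g → q (fun x => f x + g x) = q f + q g)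
    (q2 : ∀ (c : ℝ) f, BddR f → q (fun x => c * f x) = c * q f)
    (q3 : ∀ f, BddR f → (∀ x, 0 ≤ f x) → 0 ≤ q f ∧ q f ≤ m f)
    (q4 : ∀ f (s : G), BddR f → q (fun x => f (x + s)) = q f) (f : G → ℝ) (hf : BddR f) :
    q f = q (fun _ => 1) * m f := by
  classical
  rw [mem_extremePoints] at hm
  obtain ⟨⟨⟨hmean, hmz⟩, hmax⟩, hext⟩ := hm
  set α : ℝ := q (fun _ => 1) with hα
  have hα0 : 0 ≤ α := (q3 (fun _ => 1) (bdd_const 1) (fun _ => zero_le_one)).1
  have hα1 : α ≤ 1 := by
    have := (q3 (fun _ => 1) (bdd_const 1) (fun _ => zero_le_one)).2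
    rwa [hmean.one] at this
  obtain ⟨C, hC⟩ := hf
  have hf : BddR f := ⟨C, hC⟩
  rcases eq_or_lt_of_le hα0 with h0 | h0
  · have h1 := habs q1 q2 (fun f hf h => (q3 f hf h).1) f hf C hC
    rw [← hα, ← h0, mul_zero] at h1
    rw [← h0, zero_mul]
    exact abs_eq_zero.1 (le_antisymm h1 (abs_nonneg _))
  rcases eq_or_lt_of_le hα1 with h1 | h1
  · -- `m - q` is positive and vanishes at `1`
    have h2 := habs (m := fun f => m f - q f)
      (fun f g hf hg => by simp only [q1 f g hf hg, hmean.add f g hf hg]; ring)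
      (fun c f hf => by simp only [q2 c f hf, hmean.smul c f hf]; ring)
      (fun f hf h => sub_nonneg.2 (q3 f hf h).2) f hf C hC
    simp only [hmean.one] at h2
    rw [← hα, h1, sub_self, mul_zero] at h2
    rw [h1, one_mul]
    have := abs_eq_zero.1 (le_antisymm h2 (abs_nonneg _))
    linarith
  · let m1 : (G → ℝ) → ℝ := fun f => if BddR f then q f / α else 0
    let m2 : (G → ℝ) → ℝ := fun f => if BddR f then (m f - q f) / (1 - α) else 0
    have hm1 : ∀ f, BddR f → m1 f = q f / α := fun f hf => if_pos hf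
    have hm2 : ∀ f, BddR f → m2 f = (m f - q f) / (1 - α) := fun f hf => if_pos hf
    have hβ : 0 < 1 - α := by linarith
    have i1 : m1 ∈ IM G := by
      refine ⟨⟨?_, ?_, ?_, ?_, ?_⟩, fun f hf => if_neg hf⟩
      · intro f g hf hg
        rw [hm1 _ (bdd_add hf hg), hm1 f hf, hm1 g hg, q1 f g hf hg]
        ring
      · intro c f hf
        rw [hm1 _ (bdd_smul c hf), hm1 f hf, q2 c f hf]
        ring
      · intro f hf h
        rw [hm1 f hf]
        exact div_nonneg (q3 f hf h).1 hα0
      · rw [hm1 _ (bdd_const 1)]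
        exact div_self h0.ne'
      · intro f s hf
        rw [hm1 _ (bdd_shift s hf), hm1 f hf, q4 f s hf]
    have i2 : m2 ∈ IM G := by
      refine ⟨⟨?_, ?_, ?_, ?_, ?_⟩, fun f hf => if_neg hf⟩
      · intro f g hf hg
        rw [hm2 _ (bdd_add hf hg), hm2 f hf, hm2 g hg, q1 f g hf hg, hmean.add f g hf hg]
        ring
      · intro c f hf
        rw [hm2 _ (bdd_smul c hf), hm2 f hf, q2 c f hf, hmean.smul c f hf]
        ring
      · intro f hf h
        rw [hm2 f hf]
        exact div_nonneg (sub_nonneg.2 (q3 f hf h).2) hβ.le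
      · rw [hm2 _ (bdd_const 1), hmean.one]
        exact div_self hβ.ne'
      · intro f s hf
        rw [hm2 _ (bdd_shift s hf), hm2 f hf, q4 f s hf, hmean.inv f s hf]
    have comb : ∀ f, α * m1 f + (1 - α) * m2 f = m f := by
      intro f
      by_cases hf : BddR f
      · rw [hm1 f hf, hm2 f hf]
        field_simp
        ring
      · have e1 : m1 f = 0 := if_neg hf
        have e2 : m2 f = 0 := if_neg hf
        rw [e1, e2, hmz f hf]
        ring
    have c1 := hmax m1 i1
    have c2 := hmax m2 i2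
    have c3 := comb a
    have d1 : m1 a = m a := by
      apply le_antisymm c1
      by_contra hcon
      push Not at hcon
      nlinarith
    have d2 : m2 a = m a := by
      apply le_antisymm c2
      by_contra hcon
      push Not at hcon
      nlinarith
    have F1 : m1 ∈ Face a := ⟨i1, fun m' hm' => by rw [d1]; exact hmax m' hm'⟩
    have F2 : m2 ∈ Face a := ⟨i2, fun m' hm' => by rw [d2]; exact hmax m' hm'⟩
    have hseg : m ∈ openSegment ℝ m1 m2 := by
      refine ⟨α, 1 - α, h0, hβ, by ring, ?_⟩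
      funext f
      simp only [Pi.add_apply, Pi.smul_apply, smul_eq_mul]
      exact comb f
    have h3 := (hext m1 F1 m2 F2 hseg).1
    have h4 := congrFun h3 f
    rw [hm1 f hf, div_eq_iff h0.ne'] at h4
    rw [h4]
    ring

theorem s_ext : S_ext.{u} := by
  intro G _ A δ hδ hδ0
  classical
  set a : G → ℝ := A.indicator (fun _ => 1) with ha
  have hab : BddR a := by
    refine ⟨1, fun x => ?_⟩
    rw [ha]
    by_cases hx : x ∈ A
    · simp [hx]
    · simp [hx]
  unfold upperBanach at hδ
  have hne : {r : ℝ | ∃ m : (G → ℝ) → ℝ, IsMean m ∧ r = m (A.indicator fun _ => 1)}.Nonempty := by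
    by_contra h
    rw [Set.not_nonempty_iff_eq_empty] at h
    rw [h, Real.sSup_empty] at hδ
    linarith
  obtain ⟨r, ⟨m0, hm0, rfl⟩, hr⟩ := exists_lt_of_lt_csSup hne hδ
  let m0' : (G → ℝ) → ℝ := fun f => if BddR f then m0 f else 0
  have e0 : ∀ f, BddR f → m0' f = m0 f := fun f hf => if_pos hf
  have i0 : m0' ∈ IM G := by
    refine ⟨⟨?_, ?_, ?_, ?_, ?_⟩, fun f hf => if_neg hf⟩
    · intro f g hf hg
      rw [e0 _ (bdd_add hf hg), e0 f hf, e0 g hg, hm0.add f g hf hg]
    · intro c f hf
      rw [e0 _ (bdd_smul c hf), e0 f hf, hm0.smul c f hf]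
    · intro f hf h
      rw [e0 f hf]
      exact hm0.nonneg f hf h
    · rw [e0 _ (bdd_const 1), hm0.one]
    · intro f s hf
      rw [e0 _ (bdd_shift s hf), e0 f hf, hm0.inv f s hf]
  obtain ⟨m, hm⟩ := (Face_compact a).extremePoints_nonempty (Face_nonempty a ⟨_, i0⟩)
  have hmF : m ∈ Face a := hm.1
  have hmean : IsMean m := hmF.1.1
  refine ⟨toSt m hmean, toSt_inv m hmean, ?_, ?_⟩
  · intro q h1 h2 h3 h4 f hf
    rw [toSt_re]
    exact ext_of_extreme a hab m hm q h1 h2 (fun f hf h => by
      have := h3 f hf h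
      rwa [toSt_re] at this) h4 f hf
  · rw [toSt_re]
    have h1 := hmF.2 m0' i0
    rw [e0 a hab] at h1
    exact hr.le.trans h1

end Pool.Agent.R289.Bohr
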