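import Mathlib
import Pool.Agent.R161.Bohr.Defs

/-!
# MP_0fda35_co: S_model (Hilbert space model of `L²(m)`)
-/

set_option autoImplicit false

namespace Pool.Agent.R289.Bohr

open Pool.Agent.R161.Bohr
open scoped ComplexConjugate

universe u

/-- completion of a pre-inner product space -/
theorem exists_hilbert (V : Type u) [AddCommGroup V] [Module ℂ V]
    (c : PreInnerProductSpace.Core ℂ V) :
    ∃ (H : Type u) (_ : NormedAddCommGroup H) (_ : InnerProductSpace ℂ H) (_ : CompleteSpace H)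
      (J : V →ₗ[ℂ] H), DenseRange J ∧ ∀ f g, inner ℂ (J f) (J g) = c.inner f g := by
  letI : SeminormedAddCommGroup V :=
    InnerProductSpace.Core.toSeminormedAddCommGroup (𝕜 := ℂ) (c := c)
  letI : InnerProductSpace ℂ V := InnerProductSpace.ofCore c
  refine ⟨UniformSpace.Completion V, inferInstance, inferInstance, inferInstance,
    (UniformSpace.Completion.toComplL (𝕜 := ℂ)).toLinearMap,
    UniformSpace.Completion.denseRange_coe, ?_⟩
  intro f g
  exact UniformSpace.Completion.inner_coe f g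

section ext

variable {V : Type u} [AddCommGroup V] [Module ℂ V] {H : Type u} [NormedAddCommGroup H]
  [InnerProductSpace ℂ H] [CompleteSpace H]

theorem eq_of_dense (J : V →ₗ[ℂ] H) (hJ : DenseRange J) (A B : H →L[ℂ] H)
    (h : ∀ f, A (J f) = B (J f)) (x : H) : A x = B x := by
  have := hJ.equalizer A.continuous B.continuous (funext h)
  exact congrFun this x

theorem ext_isom (J : V →ₗ[ℂ] H) (hJ : DenseRange J) (A : V →ₗ[ℂ] V)
    (hA : ∀ f g, (inner ℂ (J (A f)) (J (A g)) : ℂ) = inner ℂ (J f) (J g)) :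
    ∃ B : H →L[ℂ] H, (∀ f, B (J f) = J (A f)) ∧
      ∀ x y, (inner ℂ (B x) (B y) : ℂ) = inner ℂ x y := by
  have hn : ∀ f, ‖(J ∘ₗ A) f‖ ≤ 1 * ‖J f‖ := by
    intro f
    rw [one_mul, LinearMap.comp_apply]
    have h1 := hA f f
    rw [inner_self_eq_norm_sq_to_K, inner_self_eq_norm_sq_to_K] at h1
    have h2 : ‖J (A f)‖ ^ 2 = ‖J f‖ ^ 2 := by exact_mod_cast h1
    exact (sq_le_sq₀ (norm_nonneg _) (norm_nonneg _)).1 h2.le
  have he : ∀ f, (J ∘ₗ A).extendOfNorm J (J f) = J (A f) := fun f =>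
    LinearMap.extendOfNorm_eq hJ ⟨1, hn⟩ f
  refine ⟨(J ∘ₗ A).extendOfNorm J, he, ?_⟩
  intro x y
  refine hJ.induction_on₂ (p := fun x y => (inner ℂ ((J ∘ₗ A).extendOfNorm J x)
    ((J ∘ₗ A).extendOfNorm J y) : ℂ) = inner ℂ x y) ?_ ?_ x y
  · apply isClosed_eq
    · fun_prop
    · fun_prop
  · intro f g
    rw [he, he]
    exact hA f g

end ext

section model

variable {G : Type u} [AddCommGroup G]

theorem bdd_mul {f g : G → ℂ} (hf : Bdd f) (hg : Bdd g) : Bdd (fun x => f x * g x) := by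
  obtain ⟨C, hC⟩ := hf
  obtain ⟨D, hD⟩ := hg
  refine ⟨C * D, fun x => ?_⟩
  rw [norm_mul]
  exact mul_le_mul (hC x) (hD x) (norm_nonneg _) ((norm_nonneg _).trans (hC x))

theorem bdd_conj {f : G → ℂ} (hf : Bdd f) : Bdd (fun x => conj (f x)) := by
  obtain ⟨C, hC⟩ := hf
  exact ⟨C, fun x => by simpa using hC x⟩

theorem bdd_cadd {f g : G → ℂ} (hf : Bdd f) (hg : Bdd g) : Bdd (fun x => f x + g x) := by
  obtain ⟨C, hC⟩ := hf
  obtain ⟨D, hD⟩ := hg
  exact ⟨C + D, fun x => (norm_add_le _ _).trans (add_le_add (hC x) (hD x))⟩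

theorem bdd_csmul (c : ℂ) {f : G → ℂ} (hf : Bdd f) : Bdd (fun x => c * f x) := by
  obtain ⟨C, hC⟩ := hf
  refine ⟨‖c‖ * C, fun x => ?_⟩
  rw [norm_mul]
  exact mul_le_mul_of_nonneg_left (hC x) (norm_nonneg c)

theorem bdd_cshift (s : G) {f : G → ℂ} (hf : Bdd f) : Bdd (fun x => f (x + s)) := by
  obtain ⟨C, hC⟩ := hf
  exact ⟨C, fun x => hC _⟩

theorem bdd_char (ξ : AddChar G Circle) : Bdd (fun x => (ξ x : ℂ)) := ⟨1, fun x => by simp⟩

/-- bounded functions -/
def BV (G : Type u) [AddCommGroup G] : Submodule ℂ (G → ℂ) where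
  carrier := {f | Bdd f}
  add_mem' hf hg := bdd_cadd hf hg
  zero_mem' := ⟨0, fun x => by simp⟩
  smul_mem' c _ hf := bdd_csmul c hf

theorem st_conj (m : St G) (f : G → ℂ) (hf : Bdd f) :
    m (fun x => conj (f x)) = conj (m f) := by
  obtain ⟨C, hC⟩ := hf
  have f1 : BddR (fun x => (f x).re) := ⟨C, fun x => (Complex.abs_re_le_norm _).trans (hC x)⟩
  have f2 : BddR (fun x => (f x).im) := ⟨C, fun x => (Complex.abs_im_le_norm _).trans (hC x)⟩
  have c1 : Bdd (fun x => ((f x).re : ℂ)) := ⟨C, fun x => by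
    rw [Complex.norm_real]
    exact (Complex.abs_re_le_norm _).trans (hC x)⟩
  have c2 : Bdd (fun x => ((f x).im : ℂ)) := ⟨C, fun x => by
    rw [Complex.norm_real]
    exact (Complex.abs_im_le_norm _).trans (hC x)⟩
  have e1 : m f = m (fun x => ((f x).re : ℂ)) + Complex.I * m (fun x => ((f x).im : ℂ)) := by
    rw [← m.smul' _ _ c2, ← m.add' _ _ c1 (bdd_csmul _ c2)]
    congr 1
    funext x
    rw [mul_comm]
    exact (Complex.re_add_im (f x)).symm
  have e2 : m (fun x => conj (f x)) =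
      m (fun x => ((f x).re : ℂ)) + (-Complex.I) * m (fun x => ((f x).im : ℂ)) := by
    rw [← m.smul' _ _ c2, ← m.add' _ _ c1 (bdd_csmul _ c2)]
    congr 1
    funext x
    apply Complex.ext <;> simp
  have r1 := m.real' _ f1
  have r2 := m.real' _ f2
  have k1 : conj (m (fun x => ((f x).re : ℂ))) = m (fun x => ((f x).re : ℂ)) := by
    rw [Complex.conj_eq_iff_im]; exact r1
  have k2 : conj (m (fun x => ((f x).im : ℂ))) = m (fun x => ((f x).im : ℂ)) := by
    rw [Complex.conj_eq_iff_im]; exact r2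
  rw [e1, e2, map_add, map_mul, Complex.conj_I, k1, k2]

theorem bdd_ip (f g : BV G) : Bdd (fun x => conj ((f : G → ℂ) x) * (g : G → ℂ) x) :=
  bdd_mul (bdd_conj f.2) g.2

/-- the semi-inner product -/
noncomputable def core (m : St G) : PreInnerProductSpace.Core ℂ (BV G) where
  inner f g := m (fun x => conj ((f : G → ℂ) x) * (g : G → ℂ) x)
  conj_inner_symm f g := by
    show conj (m (fun x => conj ((g : G → ℂ) x) * (f : G → ℂ) x)) =
      m (fun x => conj ((f : G → ℂ) x) * (g : G → ℂ) x)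
    rw [← st_conj m _ (bdd_ip g f)]
    congr 1
    funext x
    simp [mul_comm]
  re_inner_nonneg f := by
    show 0 ≤ (m (fun x => conj ((f : G → ℂ) x) * (f : G → ℂ) x)).re
    have e : (fun x => conj ((f : G → ℂ) x) * (f : G → ℂ) x) =
        fun x => ((‖(f : G → ℂ) x‖ ^ 2 : ℝ) : ℂ) := by
      funext x
      rw [mul_comm, Complex.mul_conj, Complex.normSq_eq_norm_sq]
    rw [e]
    apply m.nonneg'
    · obtain ⟨C, hC⟩ := f.2
      refine ⟨C ^ 2, fun x => ?_⟩
      rw [abs_of_nonneg (by positivity)]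
      exact pow_le_pow_left₀ (norm_nonneg _) (hC x) 2
    · intro x
      positivity
  add_left f g h := by
    show m (fun x => conj (((f + g : BV G) : G → ℂ) x) * (h : G → ℂ) x) = _
    rw [show (fun x => conj (((f + g : BV G) : G → ℂ) x) * (h : G → ℂ) x) = fun x =>
      (conj ((f : G → ℂ) x) * (h : G → ℂ) x) + (conj ((g : G → ℂ) x) * (h : G → ℂ) x) by
        funext x
        simp [add_mul]]
    exact m.add' _ _ (bdd_ip f h) (bdd_ip g h)
  smul_left f g r := by
    show m (fun x => conj (((r • f : BV G) : G → ℂ) x) * (g : G → ℂ) x) = _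
    rw [show (fun x => conj (((r • f : BV G) : G → ℂ) x) * (g : G → ℂ) x) = fun x =>
      conj r * (conj ((f : G → ℂ) x) * (g : G → ℂ) x) by
        funext x
        simp [mul_assoc]]
    exact m.smul' _ _ (bdd_ip f g)

/-- translation -/
def tau (s : G) : BV G →ₗ[ℂ] BV G where
  toFun f := ⟨fun x => (f : G → ℂ) (x + s), bdd_cshift s f.2⟩
  map_add' _ _ := rfl
  map_smul' _ _ := rfl

/-- modulation -/
noncomputable def mod (ξ : AddChar G Circle) : BV G →ₗ[ℂ] BV G where
  toFun f := ⟨fun x => (ξ x : ℂ) * (f : G → ℂ) x, bdd_mul (bdd_char ξ) f.2⟩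
  map_add' f g := by
    ext x
    simp [mul_add]
  map_smul' c f := by
    ext x
    simp [mul_left_comm]

theorem s_model : S_model.{u} := by
  classical
  intro G _ m hinv
  obtain ⟨H, i1, i2, i3, J0, hd, hin⟩ := exists_hilbert (BV G) (core m)
  have hT : ∀ s : G, ∃ B : H →L[ℂ] H, (∀ f, B (J0 f) = J0 (tau s f)) ∧
      ∀ x y, (inner ℂ (B x) (B y) : ℂ) = inner ℂ x y := by
    intro s
    apply ext_isom J0 hd
    intro f g
    rw [hin, hin]
    exact hinv (fun x => conj ((f : G → ℂ) x) * (g : G → ℂ) x) s (bdd_ip f g)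
  have hE : ∀ ξ : AddChar G Circle, ∃ B : H →L[ℂ] H, (∀ f, B (J0 f) = J0 (mod ξ f)) ∧
      ∀ x y, (inner ℂ (B x) (B y) : ℂ) = inner ℂ x y := by
    intro ξ
    apply ext_isom J0 hd
    intro f g
    rw [hin, hin]
    show m (fun x => conj ((ξ x : ℂ) * (f : G → ℂ) x) * ((ξ x : ℂ) * (g : G → ℂ) x)) =
      m (fun x => conj ((f : G → ℂ) x) * (g : G → ℂ) x)
    congr 1
    funext x
    have h1 : conj (ξ x : ℂ) * (ξ x : ℂ) = 1 := by
      rw [mul_comm, Complex.mul_conj, Complex.normSq_eq_norm_sq]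
      simp
    rw [map_mul]
    linear_combination (conj ((f : G → ℂ) x) * (g : G → ℂ) x) * h1
  choose T hTJ hTi using hT
  choose E hEJ hEi using hE
  let J : (G → ℂ) → H := fun f => if h : Bdd f then J0 ⟨f, h⟩ else 0
  have hJ : ∀ f (h : Bdd f), J f = J0 ⟨f, h⟩ := fun f h => dif_pos h
  refine ⟨H, i1, i2, i3, J, T, E, ?_⟩
  refine
    { J_add := ?_, J_smul := ?_, J_inner := ?_, J_dense := ?_, T_J := ?_, T_zero := ?_,
      T_add := ?_, T_inner := ?_, E_J := ?_, E_one := ?_, E_mul := ?_, E_inner := ?_, T_E := ?_ }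
  · intro f g hf hg
    rw [hJ _ (bdd_cadd hf hg), hJ f hf, hJ g hg, ← map_add]
    rfl
  · intro c f hf
    rw [hJ _ (bdd_csmul c hf), hJ f hf, ← map_smul]
    rfl
  · intro f g hf hg
    rw [hJ f hf, hJ g hg, hin]
    rfl
  · intro x ε hε
    obtain ⟨f, hf⟩ := hd.exists_dist_lt x hε
    refine ⟨(f : G → ℂ), f.2, ?_⟩
    rw [hJ _ f.2, ← dist_eq_norm]
    exact hf
  · intro s f hf
    rw [hJ f hf, hTJ, hJ _ (bdd_cshift s hf)]
    rfl
  · intro x
    refine eq_of_dense J0 hd (T 0) (ContinuousLinearMap.id ℂ H) ?_ x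
    intro f
    rw [hTJ]
    simp only [ContinuousLinearMap.coe_id', id_eq]
    congr 1
    ext y
    show (f : G → ℂ) (y + 0) = (f : G → ℂ) y
    rw [add_zero]
  · intro s t x
    refine eq_of_dense J0 hd (T (s + t)) ((T s).comp (T t)) ?_ x
    intro f
    rw [hTJ, ContinuousLinearMap.comp_apply, hTJ, hTJ]
    congr 1
    ext y
    show (f : G → ℂ) (y + (s + t)) = (f : G → ℂ) (y + s + t)
    rw [add_assoc]
  · intro s x y
    exact hTi s x y
  · intro ξ f hf
    rw [hJ f hf, hEJ, hJ _ (bdd_mul (bdd_char ξ) hf)]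
    rfl
  · intro x
    refine eq_of_dense J0 hd (E 1) (ContinuousLinearMap.id ℂ H) ?_ x
    intro f
    rw [hEJ]
    simp only [ContinuousLinearMap.coe_id', id_eq]
    congr 1
    ext y
    show ((1 : AddChar G Circle) y : ℂ) * (f : G → ℂ) y = (f : G → ℂ) y
    simp
  · intro ξ ζ x
    refine eq_of_dense J0 hd (E (ξ * ζ)) ((E ξ).comp (E ζ)) ?_ x
    intro f
    rw [hEJ, ContinuousLinearMap.comp_apply, hEJ, hEJ]
    congr 1
    ext y
    show ((ξ * ζ) y : ℂ) * (f : G → ℂ) y = (ξ y : ℂ) * ((ζ y : ℂ) * (f : G → ℂ) y)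
    rw [AddChar.mul_apply]
    push_cast
    ring
  · intro ξ x y
    exact hEi ξ x y
  · intro s ξ x
    refine eq_of_dense J0 hd ((T s).comp (E ξ)) ((ξ s : ℂ) • (E ξ).comp (T s)) ?_ x
    intro f
    rw [ContinuousLinearMap.comp_apply, hEJ, hTJ]
    rw [smul_apply, ContinuousLinearMap.comp_apply, hTJ, hEJ, ← map_smul]
    congr 1
    ext y
    show (ξ (y + s) : ℂ) * (f : G → ℂ) (y + s) = (ξ s : ℂ) * ((ξ y : ℂ) * (f : G → ℂ) (y + s))
    rw [AddChar.map_add_eq_mul]
    push_cast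
    ring

end model

end Pool.Agent.R289.Bohr
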